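import Pool.Agent.NBT.StmtsC

/-!
# NBT squad (MP_e54c4c_gt): row LVL

The potential of a minimal family without box triangles.
-/

set_option autoImplicit false

open Matrix Filter Topology

namespace Pool.Agent.NBT.H87

open Pool.Agent.PFS Pool.Agent.PFJ Pool.Agent.NBT

/-- row LVL -/
theorem lvl : TbfStmt → SxnStmt → RgaStmt → SccStmt → PotStmt → NrfStmt → LvlStmt := by
  intro _ SXN RGA SCC POT NRF n C Γ Γ₀ K T c h hM hne hN
  classical
  obtain ⟨a, ha1, ha2, ha3⟩ := POT K (Arr C T) (SCC n C Γ Γ₀ K T c h hM hN)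
  have hrig : ∀ s : ℝ, Rig C T (upp a s) := by
    intro s
    by_contra hcon
    obtain ⟨k, hk, r, hr, hkr⟩ := RGA n C Γ Γ₀ K T c h hM hne (upp a s) hcon
    have h1 := ha1 k r hkr
    have h2 : s ≤ a k := by
      simpa [upp] using hk
    apply hr
    simp only [upp, Finset.mem_filter, Finset.mem_univ, true_and]
    linarith
  have hch : ∀ S : Finset (Fin K), ∃ ε : ℝ, 0 < ε ∧
      (Rig C T S → ∀ w z, T w → T z → Nr C ε w z → BI C w S = BI C z S) := by
    intro S
    by_cases hS : Rig C T S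
    · obtain ⟨ε, hε, hh⟩ := hS
      exact ⟨ε, hε, fun _ => hh⟩
    · exact ⟨1, one_pos, fun hS' => absurd hS' hS⟩
  choose e he0 he using hch
  obtain ⟨S0, -, hS0⟩ := Finset.exists_min_image (Finset.univ : Finset (Finset (Fin K))) e
    ⟨∅, Finset.mem_univ _⟩
  obtain ⟨hmono, -⟩ := NRF n C Γ K h.cc
  refine ⟨a, e S0, he0 S0, ?_, ?_, ha3⟩
  · intro s w z hw hz hnr
    refine he (upp a s) (hrig s) w z hw hz ?_
    refine hmono (e S0) (e (upp a s)) w z (hS0 _ (Finset.mem_univ _)) ?_ hnr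
    have h1 := (h.pes w hw).1.pos (fun _ => (1 : ℝ)) (fun _ => one_pos)
    simp only [one_smul] at h1
    exact subset_closure h1
  · intro k r hkr hkr'
    have hA := ha2 k r hkr hkr'
    refine ⟨?_, hA⟩
    obtain ⟨w, x, hw, hmv, hsx⟩ := hA
    exact (SXN n C Γ Γ₀ K T c h w hw k x hmv).2.1 r hsx

end Pool.Agent.NBT.H87
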